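import Pool.Agent.Run7.h283.NW.Main
import Pool.Agent.Run7.h361.Dens

/-!
# Non-Wieferich primes of number fields: primitive divisors and density
-/

set_option autoImplicit false

namespace Run7.h283.NW

open NumberField IsDedekindDomain Filter
open scoped WithZero

/-- `v` is a primitive prime divisor of `α ^ n - 1` which divides it exactly once. -/
def ExactPrimitive (K : Type) [Field K] [NumberField K] (α : K) (n : ℕ) (v : HeightOneSpectrum (𝓞 K)) : Prop :=
  v.valuation K α = 1 ∧ v.valuation K (α ^ n - 1) = WithZero.exp (-1 : ℤ) ∧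
    ∀ m : ℕ, 1 ≤ m → m < n → v.valuation K (α ^ m - 1) = 1

section Field

variable {K : Type} [Field K] [NumberField K]

lemma val_le_one (v : HeightOneSpectrum (𝓞 K)) {α : K} (hα : v.valuation K α = 1) (n : ℕ) :
    v.valuation K (α ^ n - 1) ≤ 1 := by
  refine (Valuation.map_sub _ _ _).trans ?_
  rw [map_pow, hα, one_pow, map_one, max_self]

lemma exists_order {v : HeightOneSpectrum (𝓞 K)} {α : K} (h : NonWieferich K α v) :
    ∃ n : ℕ, 1 ≤ n ∧ ExactPrimitive K α n v := by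
  classical
  obtain ⟨hα, h1⟩ := h
  set q := Ideal.absNorm v.asIdeal - 1 with hq
  have hq1 : 1 ≤ q := by
    by_contra h0
    have h2 : q = 0 := by omega
    rw [h2, pow_zero, sub_self, map_zero] at h1
    exact WithZero.exp_ne_zero h1.symm
  have hex : ∃ n : ℕ, 1 ≤ n ∧ v.valuation K (α ^ n - 1) < 1 := by
    refine ⟨q, hq1, ?_⟩
    rw [h1, ← WithZero.exp_zero, WithZero.exp_lt_exp]
    norm_num
  set n := Nat.find hex with hn
  obtain ⟨hn1, hn2⟩ := Nat.find_spec hex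
  rw [← hn] at hn1 hn2
  have hmin : ∀ m : ℕ, 1 ≤ m → m < n → v.valuation K (α ^ m - 1) = 1 := by
    intro m hm hlt
    refine le_antisymm (val_le_one v hα m) ?_
    by_contra hc
    push Not at hc
    exact Nat.find_min hex hlt ⟨hm, hc⟩
  have hdvd : n ∣ q := by
    rw [Nat.dvd_iff_mod_eq_zero]
    by_contra hr
    have hr1 : 1 ≤ q % n := by omega
    have hr2 : q % n < n := Nat.mod_lt _ (by omega)
    have h3 := hmin _ hr1 hr2
    have h4 : v.valuation K (α ^ (n * (q / n)) - 1) < 1 := (val_pow_le v hα (dvd_mul_right _ _)).trans_lt hn2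
    have h5 : v.valuation K (α ^ q - 1) < 1 := by
      rw [h1, ← WithZero.exp_zero, WithZero.exp_lt_exp]
      norm_num
    have h6 : α ^ (n * (q / n)) * (α ^ (q % n) - 1) = (α ^ q - 1) - (α ^ (n * (q / n)) - 1) := by
      rw [mul_sub, ← pow_add, Nat.div_add_mod]
      ring
    have h7 : v.valuation K (α ^ (n * (q / n)) * (α ^ (q % n) - 1)) < 1 := by
      rw [h6]
      exact (Valuation.map_sub _ _ _).trans_lt (max_lt h5 h4)
    rw [map_mul, map_pow, hα, one_pow, one_mul, h3] at h7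
    exact lt_irrefl _ h7
  refine ⟨n, hn1, hα, ?_, hmin⟩
  have h8 : WithZero.exp (-1 : ℤ) ≤ v.valuation K (α ^ n - 1) := by
    rw [← h1]
    exact val_pow_le v hα hdvd
  by_contra hne
  have h9 := (h8.trans (discrete hn2 hne))
  rw [WithZero.exp_le_exp] at h9
  norm_num at h9

/-- an element is a unit at the primes above large `p` -/
lemma unit_large {y : K} (hy : y ≠ 0) : ∃ B : ℕ, ∀ p : ℕ, p.Prime → B < p → ∀ v : HeightOneSpectrum (𝓞 K),
    (p : 𝓞 K) ∈ v.asIdeal → v.valuation K y = 1 := by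
  have halg : IsAlgebraic ℤ y :=
    (IsFractionRing.isAlgebraic_iff ℤ ℚ K).2 (Algebra.IsAlgebraic.isAlgebraic y)
  obtain ⟨m, hm0, hint⟩ := halg.exists_integral_multiple
  obtain ⟨β, hβ⟩ : ∃ β : 𝓞 K, algebraMap (𝓞 K) K β = m * y :=
    ⟨⟨m • y, hint⟩, by rw [← zsmul_eq_mul]; rfl⟩
  have hN0 : Algebra.norm ℤ β ≠ 0 := by
    rw [Algebra.norm_ne_zero_iff]
    rintro rfl
    rw [map_zero] at hβ
    have : (m : K) ≠ 0 := by exact_mod_cast hm0
    exact mul_ne_zero this hy hβ.symm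
  refine ⟨m.natAbs + (Algebra.norm ℤ β).natAbs + 2, fun p hp hB v hv => ?_⟩
  have key : ∀ x : ℤ, x ≠ 0 → x.natAbs < p → ¬ (p : ℤ) ∣ x := by
    intro x hx hlt hd
    have := Nat.le_of_dvd (Int.natAbs_pos.2 hx) (Int.natCast_dvd.1 hd)
    omega
  have hm : ¬ (p : ℤ) ∣ m := key _ hm0 (by omega)
  have hn : ¬ (p : ℤ) ∣ Algebra.norm ℤ β := key _ hN0 (by omega)
  have h1 := int_val p hp v hv hm
  have h2 : v.valuation K (algebraMap (𝓞 K) K β) = 1 := by
    rw [v.valuation_of_algebraMap]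
    refine (v.intValuation_eq_one_iff_mem_primeCompl _).2 fun h3 => hn ?_
    have h4 := Ideal.absNorm_dvd_norm_of_mem h3
    obtain ⟨f, hf1, -, hf⟩ := norm_eq hp v hv
    rw [hf] at h4
    refine dvd_trans ?_ h4
    exact_mod_cast dvd_pow_self p (by omega)
  rw [hβ, map_mul, h1, one_mul] at h2
  exact h2

end Field

/-- the primes below non-Wieferich primes -/
def Below {ι : Type} (K : ι → Type) [∀ i, Field (K i)] [∀ i, NumberField (K i)] (α : ∀ i, K i) (p : ℕ) : Prop :=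
  p.Prime ∧ ∃ i, ∃ v : HeightOneSpectrum (𝓞 (K i)), (p : 𝓞 (K i)) ∈ v.asIdeal ∧ NonWieferich (K i) (α i) v

theorem infinite_of {ι : Type} [Fintype ι] (K : ι → Type) [∀ i, Field (K i)] [∀ i, NumberField (K i)]
    (α : ∀ i, K i) (h : ∀ P : ℕ, ∃ p, P < p ∧ Below K α p) :
    {n : ℕ | ∃ i, ∃ v : HeightOneSpectrum (𝓞 (K i)), ExactPrimitive (K i) (α i) n v}.Infinite := by
  classical
  intro hfin
  obtain ⟨M, hM⟩ := hfin.bddAbove
  have hch : ∀ i : ι, ∀ n : ℕ, ∃ B : ℕ, (α i) ^ n - 1 ≠ 0 → ∀ p : ℕ, p.Prime → B < p →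
      ∀ v : HeightOneSpectrum (𝓞 (K i)), (p : 𝓞 (K i)) ∈ v.asIdeal → v.valuation (K i) ((α i) ^ n - 1) = 1 := by
    intro i n
    by_cases h0 : (α i) ^ n - 1 = 0
    · exact ⟨0, fun h1 => absurd h0 h1⟩
    · obtain ⟨B, hB⟩ := unit_large h0
      exact ⟨B, fun _ => hB⟩
  choose B hB using hch
  obtain ⟨p, hlt, hp, i, v, hv, hW⟩ := h (∑ i, ∑ n ∈ Finset.range (M + 1), B i n)
  obtain ⟨n, hn1, hn⟩ := exists_order hW
  have hnM : n ≤ M := hM ⟨i, v, hn⟩
  have hne : (α i) ^ n - 1 ≠ 0 := by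
    intro h0
    have := hn.2.1
    rw [h0, map_zero] at this
    exact WithZero.exp_ne_zero this.symm
  have h1 : B i n ≤ ∑ i, ∑ n ∈ Finset.range (M + 1), B i n := by
    calc B i n ≤ ∑ n ∈ Finset.range (M + 1), B i n :=
          Finset.single_le_sum (f := fun n => B i n) (fun _ _ => Nat.zero_le _) (Finset.mem_range.2 (by omega))
      _ ≤ _ := Finset.single_le_sum (f := fun i => ∑ n ∈ Finset.range (M + 1), B i n) (fun _ _ => Nat.zero_le _)
          (Finset.mem_univ i)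
  have h2 := hB i n hne p hp (by omega) v hv
  rw [hn.2.1, ← WithZero.exp_zero] at h2
  have h3 := WithZero.exp_injective h2
  norm_num at h3

/-- the set of the non-Wieferich primes for the base `b` has lower density at least `1 / c` -/
def Dens (b : ℕ) (c : ℝ) : Prop := ∃ x₀ : ℕ, ∀ x : ℕ, x₀ ≤ x →
  (x : ℝ) / (c * Real.log x) ≤ ({p : ℕ | p ≤ x ∧ p.Prime ∧ ¬ p ^ 2 ∣ b ^ (p - 1) - 1}.ncard : ℝ)

lemma big_div_log (C : ℝ) : ∃ x₀ : ℕ, ∀ x : ℕ, x₀ ≤ x → C ≤ (x : ℝ) / Real.log x := by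
  have h1 := (Real.tendsto_pow_log_div_mul_add_atTop 1 0 1 one_ne_zero)
  have h2 : Tendsto (fun x : ℝ => x / Real.log x) atTop atTop := by
    have h3 : Tendsto (fun x : ℝ => Real.log x / x) atTop (nhdsWithin 0 (Set.Ioi 0)) := by
      refine tendsto_nhdsWithin_iff.2 ⟨?_, ?_⟩
      · simpa using h1
      · filter_upwards [eventually_gt_atTop 1] with x hx
        exact div_pos (Real.log_pos hx) (by linarith)
    refine (tendsto_inv_nhdsGT_zero.comp h3).congr fun x => ?_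
    simp [Function.comp]
  have h4 := (h2.comp tendsto_natCast_atTop_atTop).eventually_ge_atTop C
  obtain ⟨x₀, h⟩ := eventually_atTop.1 h4
  exact ⟨x₀, fun x hx => h x hx⟩

theorem dens_of {ι : Type} [Fintype ι] (K : ι → Type) [∀ i, Field (K i)] [∀ i, NumberField (K i)]
    (α : ∀ i, K i) (hα : ∀ i, α i ≠ 0) (c : ι → ℤ) {a : ℤ} (ha : a ≠ 0) {b : ℕ} (hb : 2 ≤ b)
    (h : |∏ i, (Algebra.norm ℚ (α i)) ^ (c i)| = (b : ℚ) ^ a) {C C' : ℝ} (hC : 0 < C) (hCC : C < C')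
    (hd : Dens b C) : ∃ x₀ : ℕ, ∀ x : ℕ, x₀ ≤ x →
      (x : ℝ) / (C' * Real.log x) ≤ ({p : ℕ | p ≤ x ∧ Below K α p}.ncard : ℝ) := by
  obtain ⟨B, hB⟩ := exists_place K α hα c ha hb h
  obtain ⟨x₁, h1⟩ := hd
  obtain ⟨x₂, h2⟩ := big_div_log ((B + 1) * (C * C' / (C' - C)))
  refine ⟨max x₁ (max x₂ 2), fun x hx => ?_⟩
  have hx1 : x₁ ≤ x := (le_max_left _ _).trans hx
  have hx2 : x₂ ≤ x := (le_max_left _ _).trans ((le_max_right _ _).trans hx)
  have hx3 : 2 ≤ x := (le_max_right _ _).trans ((le_max_right _ _).trans hx)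
  have hlog : 0 < Real.log x := Real.log_pos (by exact_mod_cast (by omega : 1 < x))
  have hC' : 0 < C' := hC.trans hCC
  have h3 := h1 x hx1
  have h4 := h2 x hx2
  have hfin : ({p : ℕ | p ≤ x ∧ Below K α p} ∪ Set.Iic B).Finite :=
    ((Set.finite_Iic x).subset fun p hp => hp.1).union (Set.finite_Iic B)
  have hsub : {p : ℕ | p ≤ x ∧ p.Prime ∧ ¬ p ^ 2 ∣ b ^ (p - 1) - 1} ⊆
      {p : ℕ | p ≤ x ∧ Below K α p} ∪ Set.Iic B := by
    rintro p ⟨hpx, hp, hW⟩
    by_cases hpB : p ≤ B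
    · exact Or.inr hpB
    · exact Or.inl ⟨hpx, hp, hB p hp (by omega) hW⟩
  have h5 : ({p : ℕ | p ≤ x ∧ p.Prime ∧ ¬ p ^ 2 ∣ b ^ (p - 1) - 1}.ncard : ℝ) ≤
      ({p : ℕ | p ≤ x ∧ Below K α p}.ncard : ℝ) + (B + 1) := by
    have h6 := (Set.ncard_le_ncard hsub hfin).trans (Set.ncard_union_le _ _)
    have h7 : (Set.Iic B).ncard = B + 1 := by
      rw [← Finset.coe_Iic, Set.ncard_coe_finset, Nat.card_Iic]
    rw [h7] at h6
    exact_mod_cast h6
  have h8 : (x : ℝ) / (C * Real.log x) - (x : ℝ) / (C' * Real.log x) =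
      (x / Real.log x) * ((C' - C) / (C * C')) := by
    field_simp
  have h9 : ((B : ℝ) + 1) ≤ (x / Real.log x) * ((C' - C) / (C * C')) := by
    have h10 : 0 < (C' - C) / (C * C') := div_pos (by linarith) (by positivity)
    calc ((B : ℝ) + 1) = ((B + 1) * (C * C' / (C' - C))) * ((C' - C) / (C * C')) := by
          have : C' - C ≠ 0 := by linarith
          field_simp
      _ ≤ _ := mul_le_mul_of_nonneg_right h4 h10.le
  linarith

end Run7.h283.NW
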