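import Mathlib

/-!
# Non-Wieferich primes of number fields: local computations

If `α ^ E` is close to one at all primes above the unramified prime number `p`, then so is the norm of `α`.
-/

set_option autoImplicit false

namespace Run7.h283.NW

open NumberField IsDedekindDomain Polynomial
open scoped WithZero

section Field

variable {K : Type} [Field K] [NumberField K]

/-- the prime number `p` is unramified -/
lemma not_mem_sq {p : ℕ} (hp : p.Prime) (hd : ¬ (p : ℤ) ∣ discr K) (v : HeightOneSpectrum (𝓞 K))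
    (hv : (p : 𝓞 K) ∈ v.asIdeal) : (p : 𝓞 K) ∉ v.asIdeal ^ 2 := by
  intro h
  have hpz : Prime (p : ℤ) := Nat.prime_iff_prime_int.1 hp
  have hmax : (Ideal.span {(p : ℤ)}).IsMaximal :=
    PrincipalIdealRing.isMaximal_of_irreducible hpz.irreducible
  have hne : Ideal.span {(p : ℤ)} ≠ ⊥ := by
    rw [Ne, Ideal.span_singleton_eq_bot]
    exact hpz.ne_zero
  have hmap : (Ideal.span {(p : ℤ)}).map (algebraMap ℤ (𝓞 K)) = Ideal.span {(p : 𝓞 K)} := by
    rw [Ideal.map_span, Set.image_singleton]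
    simp
  have h1 : v.asIdeal ^ 2 ∣ (Ideal.span {(p : ℤ)}).map (algebraMap ℤ (𝓞 K)) := by
    rw [hmap, Ideal.dvd_span_singleton]
    exact h
  have h2 := pow_sub_one_dvd_differentIdeal ℤ v.asIdeal 2 hne h1
  rw [show 2 - 1 = 1 from rfl, pow_one] at h2
  have h3 := Ideal.absNorm_dvd_absNorm_of_le (Ideal.dvd_iff_le.mp h2)
  rw [absNorm_differentIdeal K] at h3
  have h4 : p ∣ Ideal.absNorm v.asIdeal := by
    have h5 : Ideal.absNorm v.asIdeal ∣ p ^ Module.finrank ℤ (𝓞 K) := by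
      rw [← Ideal.absNorm_span_natCast]
      exact Ideal.absNorm_dvd_absNorm_of_le ((Ideal.span_singleton_le_iff_mem _).2 hv)
    obtain ⟨f, -, hf⟩ := (Nat.dvd_prime_pow hp).1 h5
    rw [hf]
    refine dvd_pow_self p ?_
    rintro rfl
    rw [pow_zero, Ideal.absNorm_eq_one_iff] at hf
    exact v.isPrime.ne_top hf
  apply hd
  rw [← Int.dvd_natAbs]
  exact_mod_cast h4.trans h3

/-- the norm of a prime above `p` -/
lemma norm_eq {p : ℕ} (hp : p.Prime) (v : HeightOneSpectrum (𝓞 K)) (hv : (p : 𝓞 K) ∈ v.asIdeal) :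
    ∃ f : ℕ, 1 ≤ f ∧ f ≤ Module.finrank ℤ (𝓞 K) ∧ Ideal.absNorm v.asIdeal = p ^ f := by
  have h5 : Ideal.absNorm v.asIdeal ∣ p ^ Module.finrank ℤ (𝓞 K) := by
    rw [← Ideal.absNorm_span_natCast]
    exact Ideal.absNorm_dvd_absNorm_of_le ((Ideal.span_singleton_le_iff_mem _).2 hv)
  obtain ⟨f, hf1, hf⟩ := (Nat.dvd_prime_pow hp).1 h5
  refine ⟨f, ?_, hf1, hf⟩
  by_contra h0
  obtain rfl : f = 0 := by omega
  rw [pow_zero, Ideal.absNorm_eq_one_iff] at hf
  exact v.isPrime.ne_top hf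

/-- Fermat -/
lemma fermat (v : HeightOneSpectrum (𝓞 K)) {α : K} (hα : v.valuation K α = 1) :
    v.valuation K (α ^ (Ideal.absNorm v.asIdeal - 1) - 1) < 1 := by
  classical
  obtain ⟨a, ⟨b, hb⟩, hab⟩ := v.exists_primeCompl_mul_eq_of_integer α hα.le
  change α * algebraMap (𝓞 K) K b = algebraMap (𝓞 K) K a at hab
  have hb1 : v.valuation K (algebraMap (𝓞 K) K b) = 1 := by
    rw [v.valuation_of_algebraMap]
    exact (v.intValuation_eq_one_iff_mem_primeCompl b).2 hb
  have ha1 : v.valuation K (algebraMap (𝓞 K) K a) = 1 := by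
    rw [← hab, map_mul, hα, hb1, one_mul]
  have ha : a ∉ v.asIdeal := by
    rw [v.valuation_of_algebraMap] at ha1
    exact (v.intValuation_eq_one_iff_mem_primeCompl a).1 ha1
  set q := Ideal.absNorm v.asIdeal - 1 with hq
  have hmax : v.asIdeal.IsMaximal := v.isMaximal
  let : Field (𝓞 K ⧸ v.asIdeal) := Ideal.Quotient.field v.asIdeal
  have : Finite (𝓞 K ⧸ v.asIdeal) := Ring.HasFiniteQuotients.finiteQuotient v.ne_bot
  let : Fintype (𝓞 K ⧸ v.asIdeal) := Fintype.ofFinite _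
  have hcard : Fintype.card (𝓞 K ⧸ v.asIdeal) = Ideal.absNorm v.asIdeal := by
    rw [Ideal.absNorm_apply, Submodule.cardQuot_apply, Nat.card_eq_fintype_card]
  have key : ∀ x : 𝓞 K, x ∉ v.asIdeal → Ideal.Quotient.mk v.asIdeal (x ^ q) = 1 := by
    intro x hx
    rw [map_pow, hq, ← hcard]
    apply FiniteField.pow_card_sub_one_eq_one
    rwa [Ne, Ideal.Quotient.eq_zero_iff_mem]
  have h1 : a ^ q - b ^ q ∈ v.asIdeal := by
    rw [← Ideal.Quotient.eq_zero_iff_mem, map_sub, key a ha, key b hb, sub_self]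
  have h2 : v.valuation K (algebraMap (𝓞 K) K (a ^ q - b ^ q)) < 1 := (v.valuation_lt_one_iff_mem _).2 h1
  have h3 : (α ^ q - 1) * (algebraMap (𝓞 K) K b) ^ q = algebraMap (𝓞 K) K (a ^ q - b ^ q) := by
    rw [map_sub, map_pow, map_pow, ← hab]
    ring
  have h4 : v.valuation K (α ^ q - 1) = v.valuation K (algebraMap (𝓞 K) K (a ^ q - b ^ q)) := by
    rw [← h3, map_mul, map_pow, hb1, one_pow, mul_one]
  rw [h4]
  exact h2

/-- divisibility -/
lemma val_pow_le (v : HeightOneSpectrum (𝓞 K)) {α : K} (hα : v.valuation K α = 1) {a b : ℕ} (h : a ∣ b) :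
    v.valuation K (α ^ b - 1) ≤ v.valuation K (α ^ a - 1) := by
  obtain ⟨k, rfl⟩ := h
  have h0 : (α ^ (a * k) - 1) = (∑ i ∈ Finset.range k, (α ^ a) ^ i) * (α ^ a - 1) := by
    rw [geom_sum_mul, ← pow_mul]
  rw [h0, map_mul]
  have h1 : v.valuation K (∑ i ∈ Finset.range k, (α ^ a) ^ i) ≤ 1 := by
    refine Valuation.map_sum_le _ fun i _ => ?_
    rw [map_pow, map_pow, hα, one_pow, one_pow]
  calc _ ≤ 1 * v.valuation K (α ^ a - 1) := mul_le_mul' h1 le_rfl
    _ = _ := one_mul _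

/-- the norm of a sum of an integer and a multiple of `c` -/
lemma norm_add_mul (a c : ℤ) (z : 𝓞 K) :
    c ∣ Algebra.norm ℤ ((a : 𝓞 K) + (c : 𝓞 K) * z) - a ^ Module.finrank ℤ (𝓞 K) := by
  classical
  let B := Module.Free.chooseBasis ℤ (𝓞 K)
  rw [Algebra.norm_eq_matrix_det B]
  have h1 : Algebra.leftMulMatrix B ((a : 𝓞 K) + (c : 𝓞 K) * z) =
      a • (1 : Matrix _ _ ℤ) + c • Algebra.leftMulMatrix B z := by
    have e1 : (a : 𝓞 K) + (c : 𝓞 K) * z = a • (1 : 𝓞 K) + c • z := by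
      rw [zsmul_eq_mul, zsmul_eq_mul, mul_one]
    rw [e1, map_add, map_zsmul, map_zsmul, map_one]
  rw [h1]
  have h2 : (Int.castRingHom (ZMod c.natAbs)) ((a • (1 : Matrix _ _ ℤ) + c • Algebra.leftMulMatrix B z).det) =
      (Int.castRingHom (ZMod c.natAbs)) (a ^ Module.finrank ℤ (𝓞 K)) := by
    rw [RingHom.map_det]
    have hc : ((c : ℤ) : ZMod c.natAbs) = 0 := by
      rw [ZMod.intCast_zmod_eq_zero_iff_dvd] <;> exact Int.natAbs_dvd.2 dvd_rfl
    have h3 : (Int.castRingHom (ZMod c.natAbs)).mapMatrix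
        (a • (1 : Matrix _ _ ℤ) + c • Algebra.leftMulMatrix B z) = (a : ZMod c.natAbs) • 1 := by
      ext i j
      rw [RingHom.mapMatrix_apply, Matrix.map_apply, Matrix.add_apply, Matrix.smul_apply, Matrix.smul_apply,
        Matrix.smul_apply, smul_eq_mul, smul_eq_mul, smul_eq_mul, map_add, map_mul, map_mul, eq_intCast, eq_intCast,
        eq_intCast, hc, zero_mul, add_zero, Matrix.one_apply, Matrix.one_apply]
      split_ifs <;> simp
    rw [h3, Matrix.det_smul, Matrix.det_one, mul_one, map_pow, Module.finrank_eq_card_basis B]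
    simp
  rw [← sub_eq_zero, ← map_sub, eq_intCast, ZMod.intCast_zmod_eq_zero_iff_dvd] at h2
  exact Int.natAbs_dvd.1 h2

/-- the local congruences at all primes above `p` give a congruence modulo `p ^ 2` -/
lemma global {p : ℕ} (hp : p.Prime) (hd : ¬ (p : ℤ) ∣ discr K) {α : K} {m : ℤ} {β : 𝓞 K} (hβ : (algebraMap (𝓞 K) K β) = m * α) {E : ℕ}
    (h : ∀ v : HeightOneSpectrum (𝓞 K), (p : 𝓞 K) ∈ v.asIdeal → v.valuation K (α ^ E - 1) ≤ WithZero.exp (-2 : ℤ)) :
    ∃ z : 𝓞 K, β ^ E = ((m ^ E : ℤ) : 𝓞 K) + (((p : ℤ) ^ 2 : ℤ) : 𝓞 K) * z := by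
  have hp0 : (p : K) ≠ 0 := by exact_mod_cast hp.ne_zero
  have hx : (algebraMap (𝓞 K) K (β ^ E - ((m ^ E : ℤ) : 𝓞 K))) = (m : K) ^ E * (α ^ E - 1) := by
    rw [map_sub, map_pow, hβ]
    push_cast
    simp only [map_pow, map_intCast]
    ring
  obtain ⟨z, hz⟩ := HeightOneSpectrum.mem_integers_of_valuation_le_one (R := 𝓞 K) (K := K)
    ((algebraMap (𝓞 K) K (β ^ E - ((m ^ E : ℤ) : 𝓞 K))) / (p : K) ^ 2) (by
      intro v
      have hpa : (p : K) = algebraMap (𝓞 K) K (p : 𝓞 K) := by simp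
      rw [map_div₀]
      by_cases hv : (p : 𝓞 K) ∈ v.asIdeal
      · have h1 : v.valuation K (algebraMap (𝓞 K) K (β ^ E - ((m ^ E : ℤ) : 𝓞 K))) ≤ WithZero.exp (-2 : ℤ) := by
          rw [hx, map_mul]
          have h2 : v.valuation K ((m : K) ^ E) ≤ 1 := by
            rw [map_pow]
            refine pow_le_one' ?_ _
            have : (m : K) = algebraMap (𝓞 K) K (m : 𝓞 K) := by simp
            rw [this]
            exact v.valuation_le_one _
          calc _ ≤ 1 * WithZero.exp (-2 : ℤ) := mul_le_mul' h2 (h v hv)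
            _ = _ := one_mul _
        have h3 : WithZero.exp (-2 : ℤ) ≤ v.valuation K ((p : K) ^ 2) := by
          have h4 : WithZero.exp (-1 : ℤ) ≤ v.valuation K (p : K) := by
            rw [hpa, v.valuation_of_algebraMap]
            have h5 : ¬ v.intValuation (p : 𝓞 K) ≤ WithZero.exp (-((2 : ℕ) : ℤ)) := by
              rw [v.intValuation_le_pow_iff_mem]
              exact not_mem_sq hp hd v hv
            have hp0' : (p : 𝓞 K) ≠ 0 := by exact_mod_cast hp.ne_zero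
            rw [v.intValuation_if_neg hp0'] at h5 ⊢
            rw [WithZero.exp_le_exp] at h5 ⊢
            push_cast at h5
            omega
          rw [map_pow]
          calc WithZero.exp (-2 : ℤ) = WithZero.exp (-1 : ℤ) ^ 2 := by
                rw [← WithZero.exp_nsmul]; norm_num
            _ ≤ _ := pow_le_pow_left' h4 2
        have h6 : v.valuation K ((p : K) ^ 2) ≠ 0 := by
          rw [Valuation.ne_zero_iff]
          exact pow_ne_zero 2 hp0
        exact div_le_one_of_le₀ (h1.trans h3) zero_le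
      · have h1 : v.valuation K (p : K) = 1 := by
          rw [hpa, v.valuation_of_algebraMap]
          exact (v.intValuation_eq_one_iff_mem_primeCompl _).2 hv
        rw [map_pow, h1, one_pow, div_one]
        exact v.valuation_le_one _)
  refine ⟨z, ?_⟩
  have h7 : algebraMap (𝓞 K) K (β ^ E - ((m ^ E : ℤ) : 𝓞 K)) = (p : K) ^ 2 * algebraMap (𝓞 K) K z := by
    rw [hz]
    field_simp
  have h8 : algebraMap (𝓞 K) K (β ^ E - ((m ^ E : ℤ) : 𝓞 K)) =
      algebraMap (𝓞 K) K ((((p : ℤ) ^ 2 : ℤ) : 𝓞 K) * z) := by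
    rw [h7]
    simp
  have h9 := (FaithfulSMul.algebraMap_injective (𝓞 K) K) h8
  linear_combination h9

/-- the norm is `1` modulo `p ^ 2` -/
lemma norm_congr {p : ℕ} (hp : p.Prime) (hd : ¬ (p : ℤ) ∣ discr K) {α : K} {m : ℤ} {β : 𝓞 K} (hβ : (algebraMap (𝓞 K) K β) = m * α) {E : ℕ}
    (h : ∀ v : HeightOneSpectrum (𝓞 K), (p : 𝓞 K) ∈ v.asIdeal → v.valuation K (α ^ E - 1) ≤ WithZero.exp (-2 : ℤ)) :
    (p : ℤ) ^ 2 ∣ Algebra.norm ℤ β ^ E - (m ^ Module.finrank ℤ (𝓞 K)) ^ E := by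
  obtain ⟨z, hz⟩ := global hp hd hβ h
  have h1 := norm_add_mul (K := K) (m ^ E) ((p : ℤ) ^ 2) z
  rw [← hz, map_pow] at h1
  rwa [← pow_mul, mul_comm E, pow_mul] at h1

end Field

end Run7.h283.NW
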