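import Mathlib

/-!
# Non-Wieferich primes of number fields: the group of the rational numbers `r` with `r ^ E` near one
-/

set_option autoImplicit false

namespace Run7.h283.NW

section

variable {p : ℕ} [hp : Fact p.Prime]

/-- `r` is a unit at `p` and `r ^ E` is `1` modulo `p ^ 2` -/
def Gp (p : ℕ) [Fact p.Prime] (E : ℕ) (r : ℚ) : Prop :=
  ‖(r : ℚ_[p])‖ = 1 ∧ ‖(r : ℚ_[p]) ^ E - 1‖ ≤ (p : ℝ) ^ (-2 : ℤ)

lemma Gp.one {E : ℕ} : Gp p E 1 := by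
  refine ⟨by simp, ?_⟩
  simp only [Rat.cast_one, one_pow, sub_self, norm_zero]
  positivity

lemma Gp.mul {E : ℕ} {r s : ℚ} (hr : Gp p E r) (hs : Gp p E s) : Gp p E (r * s) := by
  refine ⟨by rw [Rat.cast_mul, norm_mul, hr.1, hs.1, one_mul], ?_⟩
  have h1 : ((r * s : ℚ) : ℚ_[p]) ^ E - 1 = (r : ℚ_[p]) ^ E * ((s : ℚ_[p]) ^ E - 1) + ((r : ℚ_[p]) ^ E - 1) := by
    push_cast
    ring
  rw [h1]
  refine (Padic.nonarchimedean _ _).trans (max_le ?_ hr.2)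
  rw [norm_mul, norm_pow, hr.1, one_pow, one_mul]
  exact hs.2

lemma Gp.inv {E : ℕ} {r : ℚ} (hr : Gp p E r) : Gp p E r⁻¹ := by
  have h0 : (r : ℚ_[p]) ≠ 0 := by
    rw [← norm_ne_zero_iff, hr.1]
    exact one_ne_zero
  refine ⟨by rw [Rat.cast_inv, norm_inv, hr.1, inv_one], ?_⟩
  have h1 : ((r⁻¹ : ℚ) : ℚ_[p]) ^ E - 1 = -((r : ℚ_[p]) ^ E)⁻¹ * ((r : ℚ_[p]) ^ E - 1) := by
    push_cast
    rw [inv_pow]
    field_simp
    ring
  rw [h1, norm_mul, norm_neg, norm_inv, norm_pow, hr.1, one_pow, inv_one, one_mul]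
  exact hr.2

lemma Gp.pow {E : ℕ} {r : ℚ} (hr : Gp p E r) (k : ℕ) : Gp p E (r ^ k) := by
  induction k with
  | zero => simpa using Gp.one
  | succ k ih => rw [pow_succ]; exact ih.mul hr

lemma Gp.zpow {E : ℕ} {r : ℚ} (hr : Gp p E r) (k : ℤ) : Gp p E (r ^ k) := by
  obtain ⟨n, rfl | rfl⟩ := k.eq_nat_or_neg
  · rw [zpow_natCast]; exact hr.pow n
  · rw [zpow_neg, zpow_natCast]; exact (hr.pow n).inv

lemma Gp.prod {E : ℕ} {ι : Type*} (s : Finset ι) {r : ι → ℚ} (h : ∀ i ∈ s, Gp p E (r i)) :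
    Gp p E (∏ i ∈ s, r i) := by
  classical
  induction s using Finset.induction_on with
  | empty => simpa using Gp.one
  | insert a s ha ih =>
    rw [Finset.prod_insert ha]
    exact (h a (Finset.mem_insert_self a s)).mul (ih fun i hi => h i (Finset.mem_insert_of_mem hi))

lemma Gp.abs {E : ℕ} (hE : Even E) {r : ℚ} (hr : Gp p E r) : Gp p E |r| := by
  rcases abs_choice r with h | h
  · rwa [h]
  · rw [h]
    refine ⟨by rw [Rat.cast_neg, norm_neg]; exact hr.1, ?_⟩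
    rw [Rat.cast_neg, hE.neg_pow]
    exact hr.2

/-- quotients of integers -/
lemma Gp.of_dvd {E : ℕ} {a b : ℤ} (ha : ¬ (p : ℤ) ∣ a) (hb : ¬ (p : ℤ) ∣ b)
    (h : (p : ℤ) ^ 2 ∣ a ^ E - b ^ E) : Gp p E ((a : ℚ) / b) := by
  have key : ∀ c : ℤ, ¬ (p : ℤ) ∣ c → ‖(c : ℚ_[p])‖ = 1 := by
    intro c hc
    refine le_antisymm (Padic.norm_int_le_one c) ?_
    by_contra hlt
    push Not at hlt
    exact hc (Padic.norm_intCast_lt_one_iff.1 hlt)
  have hb0 : (b : ℚ_[p]) ≠ 0 := by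
    rw [← norm_ne_zero_iff, key b hb]
    exact one_ne_zero
  refine ⟨?_, ?_⟩
  · push_cast
    rw [norm_div, key a ha, key b hb, div_one]
  · have h1 : (((a : ℚ) / b : ℚ) : ℚ_[p]) ^ E - 1 = ((b : ℚ_[p]) ^ E)⁻¹ * ((a ^ E - b ^ E : ℤ) : ℚ_[p]) := by
      push_cast
      rw [div_pow]
      field_simp
    rw [h1, norm_mul, norm_inv, norm_pow, key b hb, one_pow, inv_one, one_mul]
    have := (Padic.norm_int_le_pow_iff_dvd (p := p) (a ^ E - b ^ E) 2).2 (by exact_mod_cast h)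
    exact_mod_cast this

/-- the conclusion for powers of `b` -/
lemma Gp.base {N : ℕ} (hN : 1 ≤ N) {b : ℕ} (hb : ¬ p ∣ b) {a : ℤ} (ha : ¬ (p : ℤ) ∣ a)
    (h : Gp p (p ^ N - 1) ((b : ℚ) ^ a)) : p ^ 2 ∣ b ^ (p - 1) - 1 := by
  have hpp := hp.out
  have h1 : Gp p (p ^ N - 1) ((b : ℚ) ^ a.natAbs) := by
    rcases Int.natAbs_eq a with h2 | h2
    · rw [h2, zpow_natCast] at h; exact h
    · rw [h2, zpow_neg, zpow_natCast] at h
      have := h.inv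
      rwa [inv_inv] at this
  have h2 := h1.2
  set k := a.natAbs with hk
  have hpk : ¬ p ∣ k := by
    intro hd
    apply ha
    exact Int.natCast_dvd.2 hd
  have hb0 : 0 < b := by
    rcases Nat.eq_zero_or_pos b with h0 | h0
    · exact absurd (h0 ▸ dvd_zero p) hb
    · exact h0
  have h3 : ((((b : ℤ) ^ (k * (p ^ N - 1)) - 1 : ℤ)) : ℚ_[p]) = (((b : ℚ) ^ k : ℚ) : ℚ_[p]) ^ (p ^ N - 1) - 1 := by
    push_cast
    rw [pow_mul]
  rw [← h3] at h2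
  have h4 : ((p ^ 2 : ℕ) : ℤ) ∣ (b : ℤ) ^ (k * (p ^ N - 1)) - 1 := by
    have := (Padic.norm_int_le_pow_iff_dvd (p := p) ((b : ℤ) ^ (k * (p ^ N - 1)) - 1) 2).1 (by exact_mod_cast h2)
    exact_mod_cast this
  have h5 : ((b : ZMod (p ^ 2))) ^ (k * (p ^ N - 1)) = 1 := by
    have h6 := (ZMod.intCast_zmod_eq_zero_iff_dvd ((b : ℤ) ^ (k * (p ^ N - 1)) - 1) (p ^ 2)).2 h4
    push_cast at h6
    exact sub_eq_zero.1 h6
  have hcop : Nat.Coprime b (p ^ 2) := ((Nat.Prime.coprime_iff_not_dvd hpp).2 hb).symm.pow_right 2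
  have h7 : ((b : ZMod (p ^ 2))) ^ (p * (p - 1)) = 1 := by
    have := ZMod.pow_totient (ZMod.unitOfCoprime b hcop)
    have h8 := congrArg Units.val this
    rw [Nat.totient_prime_pow hpp (by norm_num)] at h8
    simpa using h8
  have h9 : orderOf (b : ZMod (p ^ 2)) ∣ k * (p ^ N - 1) := orderOf_dvd_of_pow_eq_one h5
  have h10 : orderOf (b : ZMod (p ^ 2)) ∣ p * (p - 1) := orderOf_dvd_of_pow_eq_one h7
  have h11 : ¬ p ∣ p ^ N - 1 := by
    intro hd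
    have h12 : p ∣ p ^ N := dvd_pow_self p (by omega)
    have h13 : 1 ≤ p ^ N := Nat.one_le_pow _ _ hpp.pos
    have h14 : p ∣ 1 := by
      have := (Nat.dvd_sub h12 hd)
      rwa [Nat.sub_sub_self h13] at this
    exact hpp.one_lt.ne' (Nat.dvd_one.1 h14)
  have h15 : Nat.Coprime (orderOf (b : ZMod (p ^ 2))) p := by
    rw [Nat.coprime_comm, Nat.Prime.coprime_iff_not_dvd hpp]
    intro hd
    rcases (Nat.Prime.dvd_mul hpp).1 (hd.trans h9) with h16 | h16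
    · exact hpk h16
    · exact h11 h16
  have h17 : orderOf (b : ZMod (p ^ 2)) ∣ p - 1 := h15.dvd_of_dvd_mul_left h10
  have h18 : (b : ZMod (p ^ 2)) ^ (p - 1) = 1 := orderOf_dvd_iff_pow_eq_one.1 h17
  have h19 : 1 ≤ b ^ (p - 1) := Nat.one_le_pow _ _ hb0
  rw [← CharP.cast_eq_zero_iff (ZMod (p ^ 2)) (p ^ 2), Nat.cast_sub h19]
  push_cast
  rw [h18, sub_self]

end

end Run7.h283.NW
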