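import Pool.Agent.Run7.h283.NW.Loc
import Pool.Agent.Run7.h283.NW.Pad

/-!
# Non-Wieferich primes of number fields: the main lemma
-/

set_option autoImplicit false

namespace Run7.h283.NW

open NumberField IsDedekindDomain
open scoped WithZero

/-- `α` is a unit at the prime `v` of `K` and `v` divides `α ^ (N v - 1) - 1` exactly once. -/
def NonWieferich (K : Type) [Field K] [NumberField K] (α : K) (v : HeightOneSpectrum (𝓞 K)) : Prop :=
  v.valuation K α = 1 ∧ v.valuation K (α ^ (Ideal.absNorm v.asIdeal - 1) - 1) = WithZero.exp (-1 : ℤ)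

lemma discrete {x : ℤᵐ⁰} (h1 : x < 1) (h2 : x ≠ WithZero.exp (-1 : ℤ)) : x ≤ WithZero.exp (-2 : ℤ) := by
  by_cases hx : x = 0
  · rw [hx]; exact zero_le
  · obtain ⟨k, rfl⟩ : ∃ k : ℤ, x = WithZero.exp k := ⟨WithZero.log x, (WithZero.exp_log hx).symm⟩
    rw [← WithZero.exp_zero, WithZero.exp_lt_exp] at h1
    rw [WithZero.exp_le_exp]
    have h3 : k ≠ -1 := fun h => h2 (by rw [h])
    omega

section Field

variable {K : Type} [Field K] [NumberField K]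

lemma int_val (p : ℕ) (hp : p.Prime) (v : HeightOneSpectrum (𝓞 K)) (hv : (p : 𝓞 K) ∈ v.asIdeal) {m : ℤ}
    (hm : ¬ (p : ℤ) ∣ m) : v.valuation K (m : K) = 1 := by
  have h1 : (m : K) = algebraMap (𝓞 K) K (m : 𝓞 K) := by simp
  rw [h1, v.valuation_of_algebraMap]
  refine (v.intValuation_eq_one_iff_mem_primeCompl _).2 fun h2 => ?_
  have hpz : Prime (p : ℤ) := Nat.prime_iff_prime_int.1 hp
  have h3 : IsCoprime (p : ℤ) m := (hpz.coprime_iff_not_dvd).2 hm
  obtain ⟨a, b, hab⟩ := h3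
  apply v.isPrime.ne_top
  rw [Ideal.eq_top_iff_one]
  have h4 : (1 : 𝓞 K) = (a : 𝓞 K) * (p : 𝓞 K) + (b : 𝓞 K) * (m : 𝓞 K) := by
    have := congrArg (Int.cast : ℤ → 𝓞 K) hab
    push_cast at this
    exact this.symm
  rw [h4]
  exact v.asIdeal.add_mem (Ideal.mul_mem_left _ _ hv) (Ideal.mul_mem_left _ _ h2)

/-- If all primes above `p` are Wieferich primes for the base `α`, then so is `p` for the norm of `α`. -/
lemma norm_wief (α : K) (hα : α ≠ 0) : ∃ B : ℕ, ∀ p : ℕ, ∀ hp : p.Prime, B < p → ∀ N : ℕ,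
    (∀ f : ℕ, 1 ≤ f → f ≤ Module.finrank ℤ (𝓞 K) → f ∣ N) →
    (∀ v : HeightOneSpectrum (𝓞 K), (p : 𝓞 K) ∈ v.asIdeal → ¬ NonWieferich K α v) →
    @Gp p ⟨hp⟩ (p ^ N - 1) (Algebra.norm ℚ α) := by
  have halg : IsAlgebraic ℤ α :=
    (IsFractionRing.isAlgebraic_iff ℤ ℚ K).2 (Algebra.IsAlgebraic.isAlgebraic α)
  obtain ⟨m, hm0, hint⟩ := halg.exists_integral_multiple
  obtain ⟨β, hβ⟩ : ∃ β : 𝓞 K, algebraMap (𝓞 K) K β = m * α :=
    ⟨⟨m • α, hint⟩, by rw [← zsmul_eq_mul]; rfl⟩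
  have hN0 : Algebra.norm ℤ β ≠ 0 := by
    rw [Algebra.norm_ne_zero_iff]
    rintro rfl
    rw [map_zero] at hβ
    have : (m : K) ≠ 0 := by exact_mod_cast hm0
    exact mul_ne_zero this hα hβ.symm
  refine ⟨(discr K).natAbs + m.natAbs + (Algebra.norm ℤ β).natAbs + 2, fun p hp hB N hN h => ?_⟩
  have : Fact p.Prime := ⟨hp⟩
  have key : ∀ x : ℤ, x ≠ 0 → x.natAbs < p → ¬ (p : ℤ) ∣ x := by
    intro x hx hlt hd
    have := Nat.le_of_dvd (Int.natAbs_pos.2 hx) (Int.natCast_dvd.1 hd)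
    omega
  have hd : ¬ (p : ℤ) ∣ discr K := key _ (discr_ne_zero K) (by omega)
  have hm : ¬ (p : ℤ) ∣ m := key _ hm0 (by omega)
  have hn : ¬ (p : ℤ) ∣ Algebra.norm ℤ β := key _ hN0 (by omega)
  have hval : ∀ v : HeightOneSpectrum (𝓞 K), (p : 𝓞 K) ∈ v.asIdeal → v.valuation K α = 1 := by
    intro v hv
    have h1 := int_val p hp v hv hm
    have h2 : v.valuation K (algebraMap (𝓞 K) K β) = 1 := by
      rw [v.valuation_of_algebraMap]
      refine (v.intValuation_eq_one_iff_mem_primeCompl _).2 fun h3 => hn ?_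
      have h4 := Ideal.absNorm_dvd_norm_of_mem h3
      obtain ⟨f, hf1, -, hf⟩ := norm_eq hp v hv
      rw [hf] at h4
      refine dvd_trans ?_ h4
      exact_mod_cast dvd_pow_self p (by omega)
    rw [hβ, map_mul, h1, one_mul] at h2
    exact h2
  have hE : ∀ v : HeightOneSpectrum (𝓞 K), (p : 𝓞 K) ∈ v.asIdeal →
      v.valuation K (α ^ (p ^ N - 1) - 1) ≤ WithZero.exp (-2 : ℤ) := by
    intro v hv
    have h1 := hval v hv
    obtain ⟨f, hf1, hf2, hf⟩ := norm_eq hp v hv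
    have h2 : Ideal.absNorm v.asIdeal - 1 ∣ p ^ N - 1 := by
      rw [hf]
      exact Nat.pow_sub_one_dvd_pow_sub_one p (hN f hf1 hf2)
    refine (val_pow_le v h1 h2).trans (discrete (fermat v h1) fun h3 => h v hv ⟨h1, h3⟩)
  have h5 := norm_congr hp hd hβ hE
  have h6 : ¬ (p : ℤ) ∣ m ^ Module.finrank ℤ (𝓞 K) := fun h7 =>
    hm ((Nat.prime_iff_prime_int.1 hp).dvd_of_dvd_pow h7)
  have h8 := Gp.of_dvd (p := p) hn h6 h5
  have h9 : Algebra.norm ℚ α = (Algebra.norm ℤ β : ℚ) / ((m ^ Module.finrank ℤ (𝓞 K) : ℤ) : ℚ) := by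
    have hβ' : (β : K) = m * α := hβ
    rw [Algebra.coe_norm_int, hβ', map_mul]
    have h10 : Algebra.norm ℚ ((m : ℤ) : K) = (m : ℚ) ^ Module.finrank ℤ (𝓞 K) := by
      have h11 : ((m : ℤ) : K) = algebraMap ℚ K (m : ℚ) := by simp
      rw [h11, Algebra.norm_algebraMap, RingOfIntegers.rank]
    have hm0' : (m : ℚ) ≠ 0 := by exact_mod_cast hm0
    rw [h10]
    push_cast
    field_simp
  rw [h9]
  exact h8

end Field

/-- **Main lemma.** -/
theorem exists_place {ι : Type} [Fintype ι] (K : ι → Type) [∀ i, Field (K i)] [∀ i, NumberField (K i)]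
    (α : ∀ i, K i) (hα : ∀ i, α i ≠ 0) (c : ι → ℤ) {a : ℤ} (ha : a ≠ 0) {b : ℕ} (hb : 2 ≤ b)
    (h : |∏ i, (Algebra.norm ℚ (α i)) ^ (c i)| = (b : ℚ) ^ a) :
    ∃ B : ℕ, ∀ p : ℕ, p.Prime → B < p → ¬ p ^ 2 ∣ b ^ (p - 1) - 1 →
      ∃ i, ∃ v : HeightOneSpectrum (𝓞 (K i)), (p : 𝓞 (K i)) ∈ v.asIdeal ∧ NonWieferich (K i) (α i) v := by
  classical
  choose B hB using fun i => norm_wief (α i) (hα i)
  refine ⟨∑ i, B i + b + a.natAbs + 2, fun p hp hlt hW => ?_⟩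
  have : Fact p.Prime := ⟨hp⟩
  by_contra hno
  push Not at hno
  set N : ℕ := (∑ i, Module.finrank ℤ (𝓞 (K i)) + 1).factorial with hN
  have hNpos : 1 ≤ N := Nat.one_le_iff_ne_zero.2 (Nat.factorial_ne_zero _)
  have h1 : ∀ i, Gp p (p ^ N - 1) (Algebra.norm ℚ (α i)) := by
    intro i
    refine hB i p hp ?_ N ?_ (fun v hv => hno i v hv)
    · have := Finset.single_le_sum (f := B) (fun j _ => Nat.zero_le _) (Finset.mem_univ i)
      omega
    · intro f hf1 hf2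
      refine Nat.dvd_factorial (by omega) ?_
      have := Finset.single_le_sum (f := fun j => Module.finrank ℤ (𝓞 (K j))) (fun j _ => Nat.zero_le _)
        (Finset.mem_univ i)
      omega
  have h2 : Gp p (p ^ N - 1) (∏ i, (Algebra.norm ℚ (α i)) ^ (c i)) :=
    Gp.prod _ fun i _ => (h1 i).zpow (c i)
  have hodd : Odd p := hp.odd_of_ne_two (by omega)
  have heven : Even (p ^ N - 1) := Nat.Odd.sub_odd hodd.pow odd_one
  have h3 := h2.abs heven
  rw [h] at h3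
  refine hW (Gp.base hNpos ?_ ?_ h3)
  · intro hd
    have := Nat.le_of_dvd (by omega) hd
    omega
  · intro hd
    have := Nat.le_of_dvd (Int.natAbs_pos.2 ha) (Int.natCast_dvd.1 hd)
    omega

end Run7.h283.NW
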